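import Pool.Agent.helper88.PF.Spec

/-!
# Project pf (MP_0b485e_lc), row AUN: a universal family of approximations
-/

set_option autoImplicit false

namespace PF

noncomputable section

/-- the program number `i` of the list of programs with the number `c` -/
def AUN_code (i c : ℕ) : Nat.Partrec.Code :=
  ((Encodable.decode (α := List Nat.Partrec.Code) c).getD []).getD i Nat.Partrec.Code.zero

theorem AUN_code_primrec (i : ℕ) : Primrec (AUN_code i) := by
  have h1 : Primrec (fun c : ℕ => (Encodable.decode (α := List Nat.Partrec.Code) c).getD []) :=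
    Primrec.option_getD.comp Primrec.decode (Primrec.const [])
  exact (Primrec.list_getD Nat.Partrec.Code.zero).comp h1 (Primrec.const i)

theorem AUN_code_encode {n : ℕ} (cs : Fin n → Nat.Partrec.Code) (i : Fin n) :
    AUN_code i (Encodable.encode (List.ofFn cs)) = cs i := by
  unfold AUN_code
  rw [Encodable.encodek, Option.getD_some, List.getD_eq_getElem _ _ (by simp)]
  simp

/-- the test number `i` -/
def AUN_T (i : ℕ) (x : (ℕ × ℕ) × ℕ) : Bool :=
  (Nat.Partrec.Code.evaln x.2 (AUN_code i x.1.1) x.1.2).isSome

theorem AUN_T_comp (i : ℕ) : Computable (AUN_T i) := by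
  have h1 : Primrec fun x : (ℕ × ℕ) × ℕ => Nat.Partrec.Code.evaln x.2 (AUN_code i x.1.1) x.1.2 :=
    Nat.Partrec.Code.primrec_evaln.comp
      ((Primrec.snd.pair ((AUN_code_primrec i).comp (Primrec.fst.comp Primrec.fst))).pair
        (Primrec.snd.comp Primrec.fst))
  exact (Primrec.option_isSome.comp h1).to_comp

theorem AUN_T_mono (i c p s s' : ℕ) (h : s ≤ s') (hT : AUN_T i ((c, p), s) = true) :
    AUN_T i ((c, p), s') = true := by
  unfold AUN_T at hT ⊢
  rw [Option.isSome_iff_exists] at hT ⊢
  obtain ⟨x, hx⟩ := hT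
  exact ⟨x, Nat.Partrec.Code.evaln_mono h hx⟩

theorem AUN_cp (n : ℕ) (v : Fin n → Bool) (k : ℕ) :
    ComputablePred (fun x : (ℕ × ℕ) × ℕ => ∀ i : Fin n, (i : ℕ) < k → AUN_T i x = v i) := by
  induction k with
  | zero =>
    exact (cp_const True).of_eq (fun x => by simp)
  | succ k ih =>
    by_cases hk : k < n
    · refine (cp_and ih (cp_eq (AUN_T_comp k) (Computable.const (v ⟨k, hk⟩)))).of_eq ?_
      intro x
      constructor
      · rintro ⟨h1, h2⟩ i hi
        rcases Nat.lt_succ_iff_lt_or_eq.mp hi with h | h
        · exact h1 i h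
        · have : i = ⟨k, hk⟩ := Fin.ext h
          rw [this]
          exact h2
      · intro h
        exact ⟨fun i hi => h i (by omega), h ⟨k, hk⟩ (by simp)⟩
    · refine ih.of_eq ?_
      intro x
      constructor
      · intro h i _
        exact h i (by omega)
      · intro h i hi
        exact h i (by omega)

theorem AUN (hACP : ACP_stmt) : AUN_stmt := by
  classical
  intro β
  obtain ⟨n, ⟨eqv⟩⟩ := Finite.exists_equiv_fin β.C
  let v : Fin n → β.C := fun i => eqv.symm i
  let g : (Fin n → Bool) → β.C := fun b => Finset.univ.sup fun i => if b i = true then v i else ⊥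
  let f : (ℕ × ℕ) × ℕ → (Fin n → Bool) := fun x i => AUN_T i x
  have hf : Cmp f := by
    intro b
    refine (AUN_cp n b n).of_eq ?_
    intro x
    constructor
    · intro h
      funext i
      exact h i i.2
    · intro h i _
      exact congrFun h i
  refine ⟨fun x => g (f x), hACP.1 _ _ _ g f hf, ?_, ?_⟩
  · intro c p s
    apply Finset.sup_mono_fun
    intro i _
    by_cases h : f ((c, p), s) i = true
    · have h' : f ((c, p), s + 1) i = true := AUN_T_mono i c p s (s + 1) (Nat.le_succ s) h
      rw [if_pos h, if_pos h']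
    · rw [if_neg h]
      exact bot_le
  · intro y hy
    have hcode : ∀ i : Fin n, ∃ c : Nat.Partrec.Code, ∀ p, v i ≤ y p ↔ (c.eval p).Dom := by
      intro i
      obtain ⟨c, hc⟩ := Nat.Partrec.Code.exists_code.mp (hy (v i))
      refine ⟨c, ?_⟩
      intro p
      rw [hc]
      simp [Part.assert]
    choose cs hcs using hcode
    refine ⟨Encodable.encode (List.ofFn cs), ?_⟩
    set c := Encodable.encode (List.ofFn cs) with hc
    have hT : ∀ (i : Fin n) (p s : ℕ), AUN_T i ((c, p), s) = true ↔
        ∃ x, x ∈ Nat.Partrec.Code.evaln s (cs i) p := by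
      intro i p s
      unfold AUN_T
      rw [Option.isSome_iff_exists]
      simp only [hc, AUN_code_encode]
      rfl
    have hTle : ∀ (i : Fin n) (p s : ℕ), AUN_T i ((c, p), s) = true → v i ≤ y p := by
      intro i p s h
      obtain ⟨x, hx⟩ := (hT i p s).mp h
      rw [hcs i p, Part.dom_iff_mem]
      exact ⟨x, Nat.Partrec.Code.evaln_sound hx⟩
    have hTex : ∀ (i : Fin n) (p : ℕ), v i ≤ y p → ∃ s, AUN_T i ((c, p), s) = true := by
      intro i p h
      rw [hcs i p, Part.dom_iff_mem] at h
      obtain ⟨x, hx⟩ := h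
      obtain ⟨s, hs⟩ := Nat.Partrec.Code.evaln_complete.mp hx
      exact ⟨s, (hT i p s).mpr ⟨x, hs⟩⟩
    intro p
    obtain ⟨s₀, hs₀⟩ := hTex (eqv (y p)) p (by simp [v])
    refine ⟨s₀, ?_⟩
    intro s hs
    apply le_antisymm
    · apply Finset.sup_le
      intro i _
      by_cases h : f ((c, p), s) i = true
      · rw [if_pos h]
        exact hTle i p s h
      · rw [if_neg h]
        exact bot_le
    · have h1 : f ((c, p), s) (eqv (y p)) = true := AUN_T_mono _ c p s₀ s hs hs₀
      have h2 : (if f ((c, p), s) (eqv (y p)) = true then v (eqv (y p)) else ⊥) ≤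
          g (f ((c, p), s)) :=
        Finset.le_sup (f := fun i => if f ((c, p), s) i = true then v i else ⊥)
          (Finset.mem_univ (eqv (y p)))
      rw [if_pos h1] at h2
      simpa [v] using h2

end

end PF
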